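import Mathlib
import Pool.Agent.Q65.TreePart

/-!
MP_8bd6c4_co, Q2: the constant `c_2` of the ratio of the vertex and edge tree partition numbers is
`1/4`. In fact the maximum of `τ'/τ` over the connected graphs on `n ≥ 3` vertices is `⌈n/2⌉/2` for
every `n`.

Idea. Upper bound: if one tree carries all edges then `G` is a tree and `τ' = 1`; otherwise
`τ ≥ 2`, and `τ' ≤ ⌈n/2⌉` (proved here by removing a star at the end of a longest path).
Lower bound: triangles sharing one vertex, with a further pendant vertex for even `n`.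
-/

set_option autoImplicit false

namespace Pool.Agent.Results.MP_8bd6c4_co.SecondConstant

open SimpleGraph Filter

/-- `E(G)` is the disjoint union of the edge sets of `k` subgraphs of `G`, each of which is a
tree. -/
def TreeDecomposition {V : Type} (G : SimpleGraph V) (k : ℕ) : Prop :=
  ∃ T : Fin k → G.Subgraph, (∀ i, (T i).coe.IsTree) ∧ ∀ e ∈ G.edgeSet, ∃! i, e ∈ (T i).edgeSet

/-- `V(G)` is partitioned into `k` sets, each of which induces a tree in `G`. -/
def TreePartition {V : Type} (G : SimpleGraph V) (k : ℕ) : Prop :=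
  ∃ f : V → Fin k, ∀ i, (G.induce {v | f v = i}).IsTree

/-- `τ(G)`, the least number of trees in a decomposition of the edge set. -/
noncomputable def tau {V : Type} (G : SimpleGraph V) : ℕ := sInf {k | TreeDecomposition G k}

/-- `τ'(G)`, the least number of sets in a partition of the vertices into induced trees. -/
noncomputable def tau' {V : Type} (G : SimpleGraph V) : ℕ := sInf {k | TreePartition G k}

/-- The values `τ'(G) / τ(G)` for the connected graphs `G` on `n` vertices with at least one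
edge. -/
def ratios (n : ℕ) : Set ℝ :=
  {x | ∃ G : SimpleGraph (Fin n), G.Connected ∧ G ≠ ⊥ ∧ x = (tau' G : ℝ) / (tau G : ℝ)}

/-- The constant `c_2`: the limit superior of the greatest value of `τ'(G) / (τ(G) v(G))` over the
connected graphs on `n` vertices with at least one edge. -/
noncomputable def c2 : ℝ :=
  limsup (fun n : ℕ => sSup {x : ℝ | ∃ G : SimpleGraph (Fin n), G.Connected ∧ G ≠ ⊥ ∧
    x = (tau' G : ℝ) / ((tau G : ℝ) * n)}) atTop

theorem tau'_le {n : ℕ} (G : SimpleGraph (Fin n)) (hG : G.Connected) :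
    2 * tau' G ≤ n + 1 := by
  obtain ⟨k, hk, hp⟩ := Q65.TreePart.exists_vertPart n (Fin n) G hG (by simp)
  have : tau' G ≤ k := Nat.sInf_le hp
  omega

theorem ratio_le {n : ℕ} (hn : 3 ≤ n) (G : SimpleGraph (Fin n)) (hG : G.Connected) :
    (tau' G : ℝ) / (tau G : ℝ) ≤ (((n + 1) / 2 : ℕ) : ℝ) / 2 := by
  have h1 := tau'_le G hG
  have h1' : tau' G ≤ (n + 1) / 2 := by omega
  have h2 : (tau' G : ℝ) ≤ (((n + 1) / 2 : ℕ) : ℝ) := by exact_mod_cast h1'
  have h0 : (0 : ℝ) ≤ (tau' G : ℝ) := Nat.cast_nonneg _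
  rcases Nat.lt_or_ge (tau G) 2 with ht | ht
  · interval_cases hτ : tau G
    · simp only [Nat.cast_zero, div_zero]
      positivity
    · have hmem : TreeDecomposition G 1 := by
        have : tau G ∈ {k | TreeDecomposition G k} := by
          apply Nat.sInf_mem
          by_contra h
          rw [Set.not_nonempty_iff_eq_empty] at h
          have : tau G = 0 := by
            unfold tau
            rw [h]
            exact Nat.sInf_empty
          omega
        rw [hτ] at this
        exact this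
      have : Nontrivial (Fin n) := Fin.nontrivial_iff_two_le.2 (by omega)
      have htree := Q65.TreePart.isTree_of_edgePart_one G hG hmem
      have h3 : tau' G ≤ 1 := Nat.sInf_le (Q65.TreePart.vertPart_one_of_tree G htree)
      have h4 : (tau' G : ℝ) ≤ 1 := by exact_mod_cast h3
      have h5 : (2 : ℝ) ≤ (((n + 1) / 2 : ℕ) : ℝ) := by
        have : 2 ≤ (n + 1) / 2 := by omega
        exact_mod_cast this
      simp only [Nat.cast_one, div_one]
      linarith
  · have h3 : (2 : ℝ) ≤ (tau G : ℝ) := by exact_mod_cast ht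
    rw [div_le_div_iff₀ (by linarith) (by norm_num)]
    nlinarith

theorem exists_ratio {n : ℕ} (hn : 3 ≤ n) :
    (((n + 1) / 2 : ℕ) : ℝ) / 2 ∈ ratios n := by
  have hcon : (Q65.TreePart.mill n).Connected := Q65.TreePart.mill_connected (by omega)
  have hne : Q65.TreePart.mill n ≠ ⊥ := by
    intro h
    have : (Q65.TreePart.mill n).Adj ⟨0, by omega⟩ ⟨1, by omega⟩ := by
      refine ⟨fun h => ?_, Or.inl rfl⟩
      have := congrArg Fin.val h
      simp at this
    rw [h] at this
    exact this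
  refine ⟨Q65.TreePart.mill n, hcon, hne, ?_⟩
  have ht2 : tau (Q65.TreePart.mill n) ≤ 2 :=
    Nat.sInf_le (Q65.TreePart.mill_edgePart (by omega))
  have hmem : TreeDecomposition (Q65.TreePart.mill n) (tau (Q65.TreePart.mill n)) :=
    Nat.sInf_mem (s := {k | TreeDecomposition (Q65.TreePart.mill n) k})
      ⟨2, Q65.TreePart.mill_edgePart (by omega)⟩
  have hpos : tau (Q65.TreePart.mill n) ≠ 0 := by
    intro h0
    rw [h0] at hmem
    obtain ⟨T, -, hT⟩ := hmem
    have hadj : (Q65.TreePart.mill n).Adj ⟨0, by omega⟩ ⟨1, by omega⟩ := by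
      refine ⟨fun h => ?_, Or.inl rfl⟩
      have := congrArg Fin.val h
      simp at this
    obtain ⟨i, -, -⟩ := hT s(⟨0, by omega⟩, ⟨1, by omega⟩) hadj
    exact i.elim0
  obtain ⟨k, hk, hp⟩ := Q65.TreePart.exists_vertPart n (Fin n) (Q65.TreePart.mill n) hcon (by simp)
  have hmem' : TreePartition (Q65.TreePart.mill n) (tau' (Q65.TreePart.mill n)) :=
    Nat.sInf_mem (s := {k | TreePartition (Q65.TreePart.mill n) k}) ⟨k, hp⟩
  have hlow : n ≤ 2 * tau' (Q65.TreePart.mill n) :=
    Q65.TreePart.mill_lower (by omega) hmem'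
  have hup := tau'_le (Q65.TreePart.mill n) hcon
  have heq : tau' (Q65.TreePart.mill n) = (n + 1) / 2 := by omega
  have hub := ratio_le hn (Q65.TreePart.mill n) hcon
  refine le_antisymm ?_ hub
  rw [heq]
  have h5 : (0 : ℝ) < (tau (Q65.TreePart.mill n) : ℝ) := by
    have : 0 < tau (Q65.TreePart.mill n) := Nat.pos_of_ne_zero hpos
    exact_mod_cast this
  have h6 : (tau (Q65.TreePart.mill n) : ℝ) ≤ 2 := by exact_mod_cast ht2
  exact div_le_div_of_nonneg_left (Nat.cast_nonneg _) h5 h6

theorem isGreatest_ratios {n : ℕ} (hn : 3 ≤ n) :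
    IsGreatest (ratios n) ((((n + 1) / 2 : ℕ) : ℝ) / 2) :=
  ⟨exists_ratio hn, by rintro x ⟨G, hG, -, rfl⟩; exact ratio_le hn G hG⟩

theorem sSup_eq {n : ℕ} (hn : 3 ≤ n) :
    sSup {x : ℝ | ∃ G : SimpleGraph (Fin n), G.Connected ∧ G ≠ ⊥ ∧
      x = (tau' G : ℝ) / ((tau G : ℝ) * n)} = (((n + 1) / 2 : ℕ) : ℝ) / (2 * n) := by
  have hn0 : (0 : ℝ) < n := by
    have : 0 < n := by omega
    exact_mod_cast this
  apply IsGreatest.csSup_eq
  obtain ⟨⟨G, hG, hne, hx⟩, hub⟩ := isGreatest_ratios hn
  refine ⟨⟨G, hG, hne, ?_⟩, ?_⟩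
  · rw [← div_div, ← div_div, hx]
  · rintro x ⟨H, hH, hHne, rfl⟩
    rw [← div_div, ← div_div]
    exact div_le_div_of_nonneg_right (hub ⟨H, hH, hHne, rfl⟩) hn0.le

/-- For every `n ≥ 3` the greatest value of `τ'(G) / τ(G)` over the connected graphs on `n`
vertices is `⌈n/2⌉ / 2`, and the constant `c_2` equals `1/4`. (The first part says that the
numbers `τ` and `τ'` of a connected graph are attained.) -/
theorem result :
    (∀ (n : ℕ) (G : SimpleGraph (Fin n)), G.Connected →
      TreeDecomposition G (tau G) ∧ TreePartition G (tau' G)) ∧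
    (∀ n : ℕ, 3 ≤ n → IsGreatest (ratios n) ((((n + 1) / 2 : ℕ) : ℝ) / 2)) ∧ c2 = 1 / 4 := by
  refine ⟨fun n G hG => ⟨?_, ?_⟩, fun n hn => isGreatest_ratios hn, ?_⟩
  · exact Nat.sInf_mem (s := {k | TreeDecomposition G k}) (Q65.TreePart.exists_edgePart G)
  · obtain ⟨k, hk, hp⟩ := Q65.TreePart.exists_vertPart n (Fin n) G hG (by simp)
    exact Nat.sInf_mem (s := {k | TreePartition G k}) ⟨k, hp⟩
  apply Filter.Tendsto.limsup_eq
  have h1 : Tendsto (fun n : ℕ => (1 : ℝ) / 4 + 1 / 4 * ((n : ℝ))⁻¹) atTop (nhds (1 / 4)) := by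
    have := (tendsto_inv_atTop_nhds_zero_nat (𝕜 := ℝ)).const_mul (1 / 4 : ℝ)
    have h2 := this.const_add (1 / 4 : ℝ)
    simpa using h2
  refine tendsto_of_tendsto_of_tendsto_of_le_of_le' tendsto_const_nhds h1 ?_ ?_
  · filter_upwards [eventually_ge_atTop 3] with n hn
    rw [sSup_eq hn]
    have hn0 : (0 : ℝ) < n := by
      have : 0 < n := by omega
      exact_mod_cast this
    have h3 : (n : ℝ) ≤ 2 * (((n + 1) / 2 : ℕ) : ℝ) := by
      have : n ≤ 2 * ((n + 1) / 2) := by omega
      exact_mod_cast this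
    rw [div_le_div_iff₀ (by norm_num) (by positivity)]
    linarith
  · filter_upwards [eventually_ge_atTop 3] with n hn
    rw [sSup_eq hn]
    have hn0 : (0 : ℝ) < n := by
      have : 0 < n := by omega
      exact_mod_cast this
    have h3 : 2 * (((n + 1) / 2 : ℕ) : ℝ) ≤ (n : ℝ) + 1 := by
      have : 2 * ((n + 1) / 2) ≤ n + 1 := by omega
      exact_mod_cast this
    rw [div_le_iff₀ (by positivity)]
    have h4 : ((1 : ℝ) / 4 + 1 / 4 * ((n : ℝ))⁻¹) * (2 * n) = (n + 1) / 2 := by
      field_simp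
      ring
    rw [h4]
    linarith

end Pool.Agent.Results.MP_8bd6c4_co.SecondConstant
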